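import Pool.Agent.helper66.SL.SpecK

/-!
# Row slk:KF1: every set of edges at a vertex spans a face
-/

set_option autoImplicit false

namespace Pool.Agent.helper66.SL

open Pool.Agent.helper52.FC

private theorem KF1_mem {E : Type} {L : Set (E → SignType)} {r : ℕ} {P : Set (EuclideanSpace ℝ (Fin r))}
    (φ : topeGraph L ≃g skeleton P) {T : E → SignType} (hT : IsTope L T) : vp φ T ∈ P := by
  unfold vp
  rw [dif_pos hT]
  exact extremePoints_subset (φ ⟨T, hT⟩).2

theorem KF1_proof (hKTC : KTC) (hKIN : KIN) : KF1 := by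
  classical
  intro E _ L r P φ hK T hT K hKw
  obtain ⟨l, hl⟩ := hKIN E L r P φ hK T hT (fun e => if e ∈ K then 0 else -1)
  set lc : StrongDual ℝ (EuclideanSpace ℝ (Fin r)) := LinearMap.toContinuousLinearMap l with hlc
  have hlc' : ∀ x, lc x = l x := fun x => rfl
  have hmax : ∀ y ∈ P, l y ≤ l (vp φ T) := by
    intro y hy
    obtain ⟨c, hc0, hcw, hc⟩ := hKTC E L r P φ hK T hT y hy
    have h1 : l (y - vp φ T) = ∑ e, c e * l (vp φ (fl T e) - vp φ T) := by
      rw [hc, map_sum]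
      refine Finset.sum_congr rfl fun e _ => ?_
      rw [map_smul, smul_eq_mul]
    have h2 : l (y - vp φ T) ≤ 0 := by
      rw [h1]
      refine Finset.sum_nonpos fun e _ => ?_
      by_cases hw : Wall L T e
      · rw [hl e hw]
        refine mul_nonpos_of_nonneg_of_nonpos (hc0 e) ?_
        show (if e ∈ K then (0 : ℝ) else -1) ≤ 0
        split_ifs <;> norm_num
      · rw [hcw e hw, zero_mul]
    rw [map_sub] at h2
    linarith
  refine ⟨{x ∈ P | ∀ y ∈ P, lc y ≤ lc x}, ⟨fun _ => ⟨lc, rfl⟩, ⟨vp φ T, KF1_mem φ hT, hmax⟩⟩,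
    ⟨KF1_mem φ hT, hmax⟩, fun e he => ?_⟩
  have h3 : l (vp φ (fl T e)) - l (vp φ T) = if e ∈ K then (0 : ℝ) else -1 := by
    rw [← map_sub]
    exact hl e he
  constructor
  · rintro ⟨_, h4⟩
    by_contra hc
    rw [if_neg hc] at h3
    have h5 : l (vp φ T) ≤ l (vp φ (fl T e)) := h4 _ (KF1_mem φ hT)
    linarith
  · intro hc
    rw [if_pos hc] at h3
    refine ⟨KF1_mem φ he, fun y hy => ?_⟩
    have h5 := hmax y hy
    show l y ≤ l (vp φ (fl T e))
    linarith

end Pool.Agent.helper66.SL
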